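import Mathlib
import Pool.Agent.MP_af84f5_co.Defs
import Pool.Agent.MP_af84f5_co.Proof

namespace Pool.Agent.Results.MP_af84f5_co.Answer

open Pool.Agent.MP_af84f5_co

theorem result :
    (∀ (V : Type) [Finite V] (D : Digraph V), IsAcyclicDigraph D →
      IsSupersolvableLattice (AR D) → PeoConsistent D) ∧
    (∃ D : Digraph (Fin 3), IsAcyclicDigraph D ∧ PeoConsistent D ∧
      ¬ IsSupersolvableLattice (AR D)) :=
  ⟨fun _ _ _ hD h => peo_of_forest hD ((supersolvable_iff_forest hD).mp h),
    tri, tri_acyclic, tri_peo,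
    fun h => tri_not_forest ((supersolvable_iff_forest tri_acyclic).mp h)⟩

end Pool.Agent.Results.MP_af84f5_co.Answer
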