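import Pool.Agent.MP_af84f5_co.Defs
import Pool.Agent.MP_af84f5_co.H38.CanonDefs
import Pool.Agent.MP_af84f5_co.H38.Canon

namespace Pool.Agent.Results.MP_af84f5_co.CanonicalBase

open Pool.Agent.MP_af84f5_co

theorem result : ∃ D : Digraph (Fin 7), IsAcyclicDigraph D ∧
    D.toSimpleGraphInclusive.Connected ∧ ¬ PeoConsistent D ∧
    (∀ S T : AR D, (∃ U, IsLUB {S, T} U) ∧ ∃ U, IsGLB {S, T} U) ∧
    H38.Canonical (H38.arcForm '' {a : Fin 7 × Fin 7 | D.Adj a.1 a.2}) :=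
  ⟨H64.digA, H64.digA_acyclic, H64.connA, H64.not_peoA,
    fun S T => ⟨H38.lubA S T, H38.glbA S T⟩, H38.canonA⟩

end Pool.Agent.Results.MP_af84f5_co.CanonicalBase
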