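import Mathlib
import Pool.Agent.MP_af84f5_co.Defs
import Pool.Agent.MP_af84f5_co.Proof

namespace Pool.Agent.Results.MP_af84f5_co.Forest

open Pool.Agent.MP_af84f5_co

theorem result (V : Type) [Finite V] (D : Digraph V) (hD : IsAcyclicDigraph D) :
    IsSupersolvableLattice (AR D) ↔ D.toSimpleGraphInclusive.IsAcyclic :=
  supersolvable_iff_forest hD

end Pool.Agent.Results.MP_af84f5_co.Forest
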