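import Mathlib
import Pool.Agent.MP_af84f5_co.Defs
import Pool.Agent.MP_af84f5_co.H64.Twin

namespace Pool.Agent.Results.MP_af84f5_co.TwinOrientations

open Pool.Agent.MP_af84f5_co

theorem result :
    ∃ (D D' : Digraph (Fin 7)) (e : Equiv.Perm (Fin 7 × Fin 7)) (φ : AR D ≃o AR D')
      (L : (Fin 7 → ℝ) ≃ₗ[ℝ] (Fin 7 → ℝ)),
      IsAcyclicDigraph D ∧ IsAcyclicDigraph D' ∧
      D.toSimpleGraphInclusive = D'.toSimpleGraphInclusive ∧
      D.toSimpleGraphInclusive.Connected ∧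
      ¬ PeoConsistent D ∧ PeoConsistent D' ∧
      (∀ a : Fin 7 × Fin 7, D.Adj a.1 a.2 ↔ D'.Adj (e a).1 (e a).2) ∧
      (∀ S : AR D, (φ S).1 = e '' S.1) ∧
      (∀ a : Fin 7 × Fin 7, D.Adj a.1 a.2 → ∀ x : Fin 7 → ℝ,
        L x (e a).2 - L x (e a).1 = x a.2 - x a.1) :=
  ⟨H64.digA, H64.digB, H64.swE, H64.arIso, H64.linE, H64.digA_acyclic, H64.digB_acyclic,
    H64.under_eq, H64.connA, H64.not_peoA, H64.peoB, H64.sw_adj,
    fun S => (H64.image_sw S.1).symm, H64.linE_arc⟩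

end Pool.Agent.Results.MP_af84f5_co.TwinOrientations
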